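import Pool.Agent.helper32.TRI.Spec

/-!
# Project TRI, row Z4A (helper79)
-/

set_option autoImplicit false

open Finset

namespace Pool.Agent.TRI

open Pool.Agent.EXC

theorem Z4A_data : ∀ j : Fin 6, (![-2, -1, 0, 0, 0, 1] : Fin 6 → ℤ) j = -1 ∨ (![-2, -1, 0, 0, 0, 1] : Fin 6 → ℤ) j = 0 →
    (∃ i : Fin 8, j4 i = j ∧ r4 i = 7 ∧ (hs4 i).length = 3) ∧ ∃ i : Fin 8, j4 i = j ∧ r4 i = 5 ∧ (hs4 i).length = 2 := by
  decide +kernel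

theorem Z4A (hPR4 : PR4_stmt) (hZ4G : Z4G_stmt) : Z4A_stmt := by
  intro F _ a b m y hm hab hy
  have hm2 : m ≠ 2 := by rcases hm with h | h <;> rw [h] <;> norm_num
  obtain ⟨j, hj, g, hg, κ, hκ, hga, hgb⟩ := hPR4 F a b m hab hm2
  obtain ⟨hEa, hEb, -⟩ := g4_TPF F a b m hab
  have key : ∀ i : Fin 8, j4 i = j → HO (r4 i) (hs4 i).length y := by
    intro i hi
    obtain ⟨c1, c2, c3, c4⟩ := ch4_spec i
    refine hZ4G F (kd4 i) (k4 i) (ch4 i) (r4 i) (hs4 i) c3 c1 c2 c4 (zw4_r i) (zw4_1 i) a b y κ hκ ⟨g, hg, hga, ?_⟩ hEa hEb hy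
    rw [lt4_th.2 i, hi]
    exact hgb
  have hjm : (![-2, -1, 0, 0, 0, 1] : Fin 6 → ℤ) j = m := (bt4_spec j).2.symm.trans hj
  obtain ⟨⟨i, h1, h2, h3⟩, i', h1', h2', h3'⟩ := Z4A_data j (by rw [hjm]; exact hm)
  have k1 := key i h1
  have k2 := key i' h1'
  rw [h2, h3] at k1
  rw [h2', h3'] at k2
  exact ⟨k1, k2⟩

end Pool.Agent.TRI
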